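import Pool.Agent.T9h42.GG.Spec4
import Pool.Agent.T9h84.GG.C3

/-!
# The total mass of the weights over `Ar A Z`

Port of `T9h42.GF.{loc_count, sum_aw_one}` (`Pool/Agent/T9h42/GF/C2.lean`).
-/

set_option autoImplicit false

namespace Pool.Agent.T9h67.GG

open Finset Pool.Agent.T9h5.GG Pool.Agent.T9h42.GG
open Pool.Agent.T9h42.GF (ncard_sep sum_pi_succ)
open Pool.Agent.T9h84.GG (prod_mem_cop sum_aw)

variable {A Z : Type} [CommRing A] [IsDomain A] (S : Ar A Z)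

open Classical in
/-- equidistribution of a free slot, with the local conditions. -/
theorem loc_count (hL : LocCount) (α β : A) (hα : S.mon α) (hβ : S.mon β)
    (α₁ : A) (hα₁ : S.mon α₁) (hcop : IsCoprime α₁ β) (hdvd : α ∣ α₁) (L E d n : ℕ)
    (hdeg : S.ht α₁ + (n + 1) * d = L) (hE : S.ht β + E < L) (c : A)
    (hc : c ∈ S.Cop (α * β) L) (H : Z →₀ ℕ) (ρ : A) (hH : S.Cp H (α * β))
    (hd : S.δ * L + S.dE H + S.δ * S.ht (α * β) + S.c₀ ≤ S.δ * (E + d)) (v : Fin n → A)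
    (hv : v ∈ Fintype.piFinset (fun _ : Fin n => S.Cop (α * β) d)) :
    (((S.Cop (α * β) d).filter (fun x => S.In H (x - ρ) ∧ Ph S α β E α₁ c
      (∏ i, (Fin.cons x v : Fin (n + 1) → A) i))).card : ℝ) *
      (S.q : ℝ) ^ (S.dE H + S.δ * (L - E)) = (S.Cop (α * β) d).card := by
  rw [Fintype.mem_piFinset] at hv
  have hp := prod_mem_cop S hv
  rw [S.mem_Cop] at hp
  obtain ⟨hp1, hp2, hp3⟩ := hp
  have hcβ : IsCoprime (α₁ * ∏ i, v i) β :=
    IsCoprime.mul_left hcop (hp3.of_isCoprime_of_dvd_right (dvd_mul_left β α))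
  have h1 := hL A Z S α β (α₁ * ∏ i, v i) c ρ H L E d hα hβ (S.mon_mul _ _ hα₁ hp1) hcβ
    (hdvd.trans (dvd_mul_right _ _)) hH hc (by
      rw [S.ht_mul (S.mon_ne _ hα₁) (S.mon_ne _ hp1), hp2, ← hdeg]
      ring) hE hd
  rw [ncard_sep] at h1
  have h2 : (S.Cop (α * β) d).filter (fun x => S.In H (x - ρ) ∧ Ph S α β E α₁ c
      (∏ i, (Fin.cons x v : Fin (n + 1) → A) i)) = (S.Cop (α * β) d).filter
        (fun x => S.In H (x - ρ) ∧
        ∃ z ∈ S.Cop (α * β) E, c = (α₁ * ∏ i, v i) * x + β * z) := by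
    refine filter_congr fun x _ => ?_
    rw [Fin.prod_univ_succ]
    simp only [Fin.cons_zero, Fin.cons_succ, Ph]
    constructor
    · rintro ⟨h3, z, hz, h4⟩
      exact ⟨h3, z, hz, by rw [h4]; ring⟩
    · rintro ⟨h3, z, hz, h4⟩
      exact ⟨h3, z, hz, by rw [h4]; ring⟩
  rw [h2]
  have h1' := congrArg (Nat.cast (R := ℝ)) h1
  push_cast at h1'
  convert h1'
  rfl

/-- PIECE `SumAwOneOf`. -/
theorem sumAwOneOf : SumAwOneOf := by
  classical
  intro _ hL A Z _ _ S α β α₁ hα hβ hα₁ hcop hdvd L E d n hdeg hE c hc hd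
  have h1 := sum_aw S α β E d (n + 1) α₁ c (fun _ => (1 : ℝ))
  simp only [smul_eq_mul, mul_one] at h1
  rw [h1, sum_pi_succ, sum_mul]
  have h2 : ∀ v ∈ Fintype.piFinset (fun _ : Fin n => S.Cop (α * β) d),
      (∑ x ∈ S.Cop (α * β) d, if Ph S α β E α₁ c (∏ i, (Fin.cons x v : Fin (n + 1) → A) i)
        then (1 : ℝ) else 0) * (S.q : ℝ) ^ (S.δ * (L - E)) = (S.Cop (α * β) d).card := by
    intro v hv
    have h3 := loc_count S hL α β hα hβ α₁ hα₁ hcop hdvd L E d n hdeg hE c hc 0 0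
      (fun z => Or.inl rfl) (by rw [S.dE_zero]; simpa using hd) v hv
    rw [S.dE_zero, zero_add] at h3
    rw [← h3, sum_boole]
    congr 3
    refine filter_congr fun x _ => ?_
    exact ⟨fun h => ⟨S.In_all _, h⟩, fun h => h.2⟩
  rw [sum_congr rfl h2, sum_const, Fintype.card_piFinset_const, nsmul_eq_mul]
  push_cast
  ring

end Pool.Agent.T9h67.GG
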